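import Mathlib

set_option autoImplicit false

namespace Pool.Agent.Results.MP_aec1ed_pr.GaussPoint

open Finset

/-- finitely supported probability measures on `ℕ` -/
structure FinProb where
  /-- the masses -/
  f : ℕ →₀ ℝ
  nonneg : ∀ s, 0 ≤ f s
  total : (f.sum fun _ x => x) = 1

/-- `ρ = μ * ν` (convolution) -/
def IsConv (μ ν ρ : FinProb) : Prop :=
  ∀ n, ρ.f n = ∑ p ∈ antidiagonal n, μ.f p.1 * ν.f p.2

/-- `Ψ` is an endomorphism of the convolution semigroup -/
def IsEndo (Ψ : FinProb → FinProb) : Prop :=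
  ∀ μ ν ρ, IsConv μ ν ρ → IsConv (Ψ μ) (Ψ ν) (Ψ ρ)

/-- `Ψ` is weakly support-preserving: `Ψ μ` is absolutely continuous with respect to `μ` -/
def IsWeaklySuppPres (Ψ : FinProb → FinProb) : Prop :=
  ∀ μ s, μ.f s = 0 → (Ψ μ).f s = 0

/-- `Ψ = Φ_β` -/
def IsTilt (β : ℝ) (Ψ : FinProb → FinProb) : Prop :=
  ∀ μ s, (Ψ μ).f s =
    μ.f s * Real.exp (-β * s) / (μ.f.sum fun t x => x * Real.exp (-β * t))

/-- `Ψ = Φ_max` -/
def IsMaxMap (Ψ : FinProb → FinProb) : Prop :=
  ∀ μ s, μ.f s ≠ 0 → (∀ t, μ.f t ≠ 0 → t ≤ s) → (Ψ μ).f s = 1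

/-- `Ψ = Φ_min` -/
def IsMinMap (Ψ : FinProb → FinProb) : Prop :=
  ∀ μ s, μ.f s ≠ 0 → (∀ t, μ.f t ≠ 0 → s ≤ t) → (Ψ μ).f s = 1

theorem exists_valuation : ∃ B : ValuationSubring ℝ, B.valuation 2 < 1 := by
  let A : Subring ℝ := (Int.castRingHom ℝ).range
  let two : A := ⟨2, ⟨2, by simp⟩⟩
  have hI : Ideal.span {two} ≠ ⊤ := by
    rw [Ne, Ideal.span_singleton_eq_top]
    intro h
    obtain ⟨y, hy⟩ := h.exists_right_inv
    obtain ⟨n, hn⟩ := y.2
    have h1 : (2 : ℝ) * y.1 = 1 := congrArg Subtype.val hy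
    rw [← hn] at h1
    have h2 : (2 : ℤ) * n = 1 := by
      have : ((2 * n : ℤ) : ℝ) = 1 := by push_cast; exact h1
      exact_mod_cast this
    omega
  obtain ⟨B, _, hB⟩ := Ideal.image_subset_nonunits_valuationSubring (Ideal.span {two}) hI
  refine ⟨B, ?_⟩
  have h2 : (2 : ℝ) ∈ B.nonunits := hB ⟨two, Ideal.subset_span rfl, rfl⟩
  exact B.mem_nonunits_iff.mp h2

section

variable (B : ValuationSubring ℝ)

/-- `s` is the least index at which the valuation of the masses is maximal -/
def IsIdx (μ : FinProb) (s : ℕ) : Prop :=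
  (∀ t, B.valuation (μ.f t) ≤ B.valuation (μ.f s)) ∧
    (∀ t < s, B.valuation (μ.f t) < B.valuation (μ.f s)) ∧ μ.f s ≠ 0

theorem FinProb.exists_ne (μ : FinProb) : ∃ s, μ.f s ≠ 0 := by
  by_contra h
  push Not at h
  have h1 : μ.f = 0 := Finsupp.ext h
  have h2 := μ.total
  rw [h1] at h2
  simp at h2

theorem exists_idx (μ : FinProb) : ∃ s, IsIdx B μ s := by
  classical
  obtain ⟨s0, hs0⟩ := μ.exists_ne
  obtain ⟨m, hm, hmax⟩ := μ.f.support.exists_max_image (fun t => B.valuation (μ.f t))
    ⟨s0, Finsupp.mem_support_iff.mpr hs0⟩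
  have hex : ∃ s, ∀ t, B.valuation (μ.f t) ≤ B.valuation (μ.f s) := by
    refine ⟨m, fun t => ?_⟩
    by_cases ht : μ.f t = 0
    · rw [ht, map_zero]; exact zero_le
    · exact hmax t (Finsupp.mem_support_iff.mpr ht)
  refine ⟨Nat.find hex, Nat.find_spec hex, ?_, ?_⟩
  · intro t ht
    have h1 := Nat.find_min hex ht
    push Not at h1
    obtain ⟨u, hu⟩ := h1
    exact lt_of_lt_of_le hu (Nat.find_spec hex u)
  · intro h0
    have h1 := Nat.find_spec hex s0
    rw [h0, map_zero] at h1
    have h2 : B.valuation (μ.f s0) = 0 := le_antisymm h1 zero_le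
    exact hs0 ((B.valuation).zero_iff.mp h2)

theorem idx_unique {μ : FinProb} {s s' : ℕ} (h : IsIdx B μ s) (h' : IsIdx B μ s') : s = s' := by
  rcases lt_trichotomy s s' with hlt | heq | hlt
  · exact absurd (h.1 s') (not_le.mpr (h'.2.1 s hlt))
  · exact heq
  · exact absurd (h'.1 s) (not_le.mpr (h.2.1 s' hlt))

/-- Gauss's lemma -/
theorem idx_conv {μ ν ρ : FinProb} {i j : ℕ} (hi : IsIdx B μ i) (hj : IsIdx B ν j)
    (h : IsConv μ ν ρ) : IsIdx B ρ (i + j) := by
  classical
  have hvi : B.valuation (μ.f i) ≠ 0 := (B.valuation).ne_zero_iff.mpr hi.2.2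
  have hvj : B.valuation (ν.f j) ≠ 0 := (B.valuation).ne_zero_iff.mpr hj.2.2
  set M := B.valuation (μ.f i) * B.valuation (ν.f j) with hM
  have hM0 : M ≠ 0 := mul_ne_zero hvi hvj
  have hlt : ∀ s t, s < i ∨ t < j → B.valuation (μ.f s * ν.f t) < M := by
    intro s t hst
    rw [map_mul]
    rcases hst with hs | ht
    · calc B.valuation (μ.f s) * B.valuation (ν.f t)
          ≤ B.valuation (μ.f s) * B.valuation (ν.f j) := mul_le_mul_right (hj.1 t) _
        _ < M := mul_lt_mul_of_pos_right (hi.2.1 s hs) (zero_lt_iff.mpr hvj)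
    · calc B.valuation (μ.f s) * B.valuation (ν.f t)
          ≤ B.valuation (μ.f i) * B.valuation (ν.f t) := mul_le_mul_left (hi.1 s) _
        _ < M := mul_lt_mul_of_pos_left (hj.2.1 t ht) (zero_lt_iff.mpr hvi)
  have hle : ∀ s t, B.valuation (μ.f s * ν.f t) ≤ M := by
    intro s t
    rw [map_mul]
    exact mul_le_mul' (hi.1 s) (hj.1 t)
  have hmain : B.valuation (ρ.f (i + j)) = M := by
    rw [h (i + j), ← add_sum_erase (antidiagonal (i + j)) _ (HasAntidiagonal.mem_antidiagonal.mpr rfl :
      ((i, j) : ℕ × ℕ) ∈ antidiagonal (i + j))]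
    have h1 : B.valuation (∑ p ∈ (antidiagonal (i + j)).erase (i, j), μ.f p.1 * ν.f p.2) < M := by
      apply (B.valuation).map_sum_lt hM0
      rintro ⟨s, t⟩ hp
      rw [mem_erase, HasAntidiagonal.mem_antidiagonal] at hp
      apply hlt
      by_contra hcon
      push Not at hcon
      apply hp.1
      simp only at hp hcon
      have e1 : s = i := by omega
      have e2 : t = j := by omega
      rw [e1, e2]
    have h2 : B.valuation (μ.f i * ν.f j) = M := map_mul _ _ _
    rw [(B.valuation).map_add_eq_of_lt_left (by rw [h2]; exact h1), h2]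
  refine ⟨?_, ?_, ?_⟩
  · intro t
    rw [hmain, h t]
    apply (B.valuation).map_sum_le
    intro p _
    exact hle _ _
  · intro t ht
    rw [hmain, h t]
    apply (B.valuation).map_sum_lt hM0
    rintro ⟨s, u⟩ hp
    rw [HasAntidiagonal.mem_antidiagonal] at hp
    apply hlt
    simp only at hp
    omega
  · intro h0
    rw [h0, map_zero] at hmain
    exact hM0 hmain.symm

/-- the chosen index -/
noncomputable def idx (μ : FinProb) : ℕ := Classical.choose (exists_idx B μ)

theorem idx_spec (μ : FinProb) : IsIdx B μ (idx B μ) := Classical.choose_spec (exists_idx B μ)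

/-- point mass -/
noncomputable def pt (s : ℕ) : FinProb where
  f := Finsupp.single s 1
  nonneg := by
    intro t
    rw [Finsupp.single_apply]
    split_ifs <;> norm_num
  total := by simp

theorem pt_conv (i j : ℕ) : IsConv (pt i) (pt j) (pt (i + j)) := by
  classical
  intro n
  simp only [pt, Finsupp.single_apply]
  by_cases h : i + j = n
  · subst h
    rw [if_pos rfl, sum_eq_single (i, j)]
    · simp
    · rintro ⟨s, t⟩ _ hne
      by_cases h1 : i = s
      · by_cases h2 : j = t
        · subst h1; subst h2; exact absurd rfl hne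
        · simp [h2]
      · simp [h1]
    · intro h; simp at h
  · rw [if_neg h]
    symm
    apply sum_eq_zero
    rintro ⟨s, t⟩ hp
    rw [HasAntidiagonal.mem_antidiagonal] at hp
    simp only at hp
    by_cases h1 : i = s
    · by_cases h2 : j = t
      · subst h1; subst h2; exact absurd hp h
      · simp [h2]
    · simp [h1]

end

/-- the measure `(2/5, 1/5, 2/5)` -/
noncomputable def m0 : FinProb where
  f := Finsupp.single 0 (2 / 5) + Finsupp.single 1 (1 / 5) + Finsupp.single 2 (2 / 5)
  nonneg := by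
    intro s
    simp only [Finsupp.add_apply, Finsupp.single_apply]
    split_ifs <;> norm_num
  total := by
    rw [Finsupp.sum_add_index', Finsupp.sum_add_index']
    · simp; norm_num
    all_goals intros; rfl

theorem m0_apply (s : ℕ) : m0.f s = if s = 0 then 2 / 5 else if s = 1 then 1 / 5 else
    if s = 2 then 2 / 5 else 0 := by
  simp only [m0, Finsupp.add_apply, Finsupp.single_apply]
  rcases s with _ | _ | _ | s <;> simp

/-- There is a weakly support-preserving endomorphism of the semigroup of finitely supported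
probability measures on `ℕ` which is none of `Φ_β`, `Φ_max`, `Φ_min`. -/
theorem result : ∃ Ψ : FinProb → FinProb, IsEndo Ψ ∧ IsWeaklySuppPres Ψ ∧
    (∀ β : ℝ, ¬ IsTilt β Ψ) ∧ ¬ IsMaxMap Ψ ∧ ¬ IsMinMap Ψ := by
  classical
  obtain ⟨B, hB⟩ := exists_valuation
  have h5 : B.valuation (1 / 5 : ℝ) ≠ 0 := (B.valuation).ne_zero_iff.mpr (by norm_num)
  have h25 : B.valuation (2 / 5 : ℝ) < B.valuation (1 / 5 : ℝ) := by
    have : (2 / 5 : ℝ) = 2 * (1 / 5) := by norm_num
    rw [this, map_mul]
    calc B.valuation 2 * B.valuation (1 / 5 : ℝ) < 1 * B.valuation (1 / 5 : ℝ) :=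
          mul_lt_mul_of_pos_right hB (zero_lt_iff.mpr h5)
      _ = _ := one_mul _
  have hidx : IsIdx B m0 1 := by
    refine ⟨?_, ?_, ?_⟩
    · intro t
      have e1 : m0.f 1 = 1 / 5 := by rw [m0_apply]; norm_num
      rw [e1, m0_apply t]
      split_ifs
      · exact h25.le
      · exact le_rfl
      · exact h25.le
      · rw [map_zero]; exact zero_le
    · intro t ht
      have : t = 0 := by omega
      subst this
      simpa [m0_apply] using h25
    · simp [m0_apply]
  have hid : idx B m0 = 1 := idx_unique B (idx_spec B m0) hidx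
  refine ⟨fun μ => pt (idx B μ), ?_, ?_, ?_, ?_, ?_⟩
  · intro μ ν ρ h
    have h1 := idx_conv B (idx_spec B μ) (idx_spec B ν) h
    have h2 := idx_unique B (idx_spec B ρ) h1
    simp only [h2]
    exact pt_conv _ _
  · intro μ s hs
    simp only [pt, Finsupp.single_apply]
    rw [if_neg]
    intro h
    exact (idx_spec B μ).2.2 (h ▸ hs)
  · intro β h
    have h1 := h m0 0
    simp only [hid, pt, Finsupp.single_apply] at h1
    have h2 : 0 < (m0.f.sum fun t x => x * Real.exp (-β * t)) := by
      rw [Finsupp.sum]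
      apply sum_pos'
      · intro t _
        exact mul_nonneg (m0.nonneg t) (Real.exp_pos _).le
      · refine ⟨0, ?_, ?_⟩
        · rw [Finsupp.mem_support_iff, m0_apply]; norm_num
        · rw [m0_apply]; norm_num
    have h3 : 0 < m0.f 0 * Real.exp (-β * (0 : ℕ)) /
        (m0.f.sum fun t x => x * Real.exp (-β * t)) := by
      apply div_pos _ h2
      rw [m0_apply]
      norm_num
    rw [← h1] at h3
    simp at h3
  · intro h
    have h1 := h m0 2 (by rw [m0_apply]; norm_num) (by
      intro t ht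
      rw [m0_apply] at ht
      by_contra hcon
      apply ht
      rw [if_neg (by omega), if_neg (by omega), if_neg (by omega)])
    simp only [hid, pt, Finsupp.single_apply] at h1
    norm_num at h1
  · intro h
    have h1 := h m0 0 (by rw [m0_apply]; norm_num) (by intro t _; exact Nat.zero_le t)
    simp only [hid, pt, Finsupp.single_apply] at h1
    norm_num at h1

end Pool.Agent.Results.MP_aec1ed_pr.GaussPoint
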